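import Mathlib

set_option autoImplicit false
open MeasureTheory Filter Topology Set Metric
open scoped ComplexConjugate ContDiff ComplexOrder

namespace Pool.Agent.Results.MP_8f0dee_an.LelongData

/-- `ℂⁿ` with its Euclidean norm. -/
abbrev E (n : ℕ) := EuclideanSpace ℂ (Fin n)

/-- the standard basis vectors -/
noncomputable def e {n : ℕ} (i : Fin n) : E n := EuclideanSpace.single i 1

/-- The second (real) derivative of `f` at `z` in the directions `v`, `w`. -/
noncomputable def D2 {n : ℕ} (f : E n → ℝ) (z v w : E n) : ℝ := fderiv ℝ (fderiv ℝ f) z v w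

/-- The complex Hessian matrix `∂² f / ∂ z_i ∂ \bar z_j` in terms of the real second derivatives:
with `z_k = x_k + i y_k` the entry is
`(f_{x_i x_j} + f_{y_i y_j} + i (f_{x_i y_j} - f_{y_i x_j})) / 4`. -/
noncomputable def complexHessian {n : ℕ} (f : E n → ℝ) (z : E n) : Matrix (Fin n) (Fin n) ℂ :=
  Matrix.of fun i j =>
    (((D2 f z (e i) (e j) + D2 f z (Complex.I • e i) (Complex.I • e j) : ℝ) : ℂ) +
      Complex.I * ((D2 f z (e i) (Complex.I • e j) - D2 f z (Complex.I • e i) (e j) : ℝ) : ℂ)) / 4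

/-- A solution of the flow on `Ω × (0, T)` with initial datum `u₀` (values in `[-∞, ∞)`) and boundary
data `φ`. -/
structure IsFlowSolution {n : ℕ} (Ω : Set (E n)) (T : ℝ) (u₀ : E n → EReal) (φ : E n × ℝ → ℝ)
    (u : E n × ℝ → ℝ) : Prop where
  smooth : ContDiffOn ℝ ∞ u (closure Ω ×ˢ Ioo 0 T)
  psh : ∀ t ∈ Ioo 0 T, ∀ z ∈ Ω, (complexHessian (fun y => u (y, t)) z).PosDef
  flow : ∀ t ∈ Ioo 0 T, ∀ z ∈ Ω, deriv (fun τ => u (z, τ)) t =
    Real.log (complexHessian (fun y => u (y, t)) z).det.re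
  boundary : ∀ t ∈ Ioo 0 T, ∀ z ∈ frontier Ω, u (z, t) = φ (z, t)
  initial : ∀ z ∈ closure Ω, Tendsto (fun t : ℝ => ((u (z, t) : ℝ) : EReal)) (𝓝[>] 0) (𝓝 (u₀ z))

/-- the function `a log |z|`, with value `-∞` at `0` -/
noncomputable def logPole {n : ℕ} (a : ℝ) (z : E n) : EReal :=
  open Classical in if z = 0 then ⊥ else ((a * Real.log ‖z‖ : ℝ) : EReal)

/-! ### A second derivative test -/

lemma second_deriv_nonpos {f f' : ℝ → ℝ} {c : ℝ} (h1 : ∀ᶠ x in 𝓝 0, HasDerivAt f (f' x) x)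
    (h2 : HasDerivAt f' c 0) (h3 : IsLocalMax f 0) : c ≤ 0 := by
  by_contra hc
  push Not at hc
  have h0 : f' 0 = 0 := h3.hasDerivAt_eq_zero h1.self_of_nhds
  have h4 : Tendsto (slope f' 0) (𝓝[≠] 0) (𝓝 c) := hasDerivAt_iff_tendsto_slope.1 h2
  have h5 : ∀ᶠ x in 𝓝[≠] (0 : ℝ), 0 < slope f' 0 x := h4.eventually (lt_mem_nhds hc)
  rw [eventually_nhdsWithin_iff] at h5
  obtain ⟨r, hr, hball⟩ := Metric.eventually_nhds_iff.1 (h1.and (h5.and h3))
  have hr2 : 0 < r / 2 := by positivity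
  have hlt : r / 2 < r := by linarith
  obtain ⟨x, hx, hxs⟩ := exists_hasDerivAt_eq_slope f f' hr2
    (fun y hy => (hball (y := y) (by
      rw [Real.dist_eq, sub_zero, abs_of_nonneg hy.1]; linarith [hy.2])).1.continuousAt.continuousWithinAt)
    (fun y hy => (hball (y := y) (by
      rw [Real.dist_eq, sub_zero, abs_of_nonneg hy.1.le]; linarith [hy.2])).1)
  have hx2 := (hball (y := x) (by
    rw [Real.dist_eq, sub_zero, abs_of_nonneg hx.1.le]; linarith [hx.2])).2.1
    (by simpa using hx.1.ne')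
  have hx3 := (hball (y := r / 2) (by
    rw [Real.dist_eq, sub_zero, abs_of_nonneg hr2.le]; linarith)).2.2
  simp only [slope, vsub_eq_sub, sub_zero, smul_eq_mul, h0] at hx2
  have hx4 : 0 < f' x := by
    have := mul_pos hx.1 hx2
    rwa [← mul_assoc, mul_inv_cancel₀ hx.1.ne', one_mul] at this
  rw [hxs, sub_zero] at hx4
  have hx5 : f (r / 2) ≤ f 0 := hx3
  have : (f (r / 2) - f 0) / (r / 2) ≤ 0 := div_nonpos_of_nonpos_of_nonneg (by linarith) hr2.le
  linarith

/-! ### The Levi form -/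

section Levi

variable {n : ℕ}

/-- the Levi form of a real bilinear form, sesquilinear -/
noncomputable def leviForm (B : E n →L[ℝ] E n →L[ℝ] ℝ) (v w : E n) : ℂ :=
  (((B v w + B (Complex.I • v) (Complex.I • w) : ℝ) : ℂ) +
    Complex.I * ((B v (Complex.I • w) - B (Complex.I • v) w : ℝ) : ℂ)) / 4

lemma I_smul_I_smul (v : E n) : Complex.I • Complex.I • v = -v := by
  rw [smul_smul, Complex.I_mul_I, neg_one_smul]

lemma leviForm_add_left (B : E n →L[ℝ] E n →L[ℝ] ℝ) (v v' w : E n) :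
    leviForm B (v + v') w = leviForm B v w + leviForm B v' w := by
  unfold leviForm
  simp only [smul_add, map_add, add_apply]
  push_cast
  ring

lemma leviForm_add_right (B : E n →L[ℝ] E n →L[ℝ] ℝ) (v w w' : E n) :
    leviForm B v (w + w') = leviForm B v w + leviForm B v w' := by
  unfold leviForm
  simp only [smul_add, map_add]
  push_cast
  ring

lemma complex_smul_eq (c : ℂ) (v : E n) : c • v = c.re • v + c.im • (Complex.I • v) := by
  conv_lhs => rw [← Complex.re_add_im c, add_smul, mul_smul]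
  rfl

lemma leviForm_smul_left (B : E n →L[ℝ] E n →L[ℝ] ℝ) (c : ℂ) (v w : E n) :
    leviForm B (c • v) w = c * leviForm B v w := by
  have h2 : Complex.I • (c • v) = c.re • (Complex.I • v) + c.im • (-v) := by
    rw [complex_smul_eq c v, smul_add, smul_comm Complex.I c.re, smul_comm Complex.I c.im,
      I_smul_I_smul]
  unfold leviForm
  rw [h2, complex_smul_eq c v]
  simp only [map_add, map_smul, map_neg, add_apply,
    smul_apply, neg_apply, smul_eq_mul]
  conv_rhs => rw [← Complex.re_add_im c]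
  push_cast
  linear_combination (-(c.im : ℂ) * ((B v (Complex.I • w) : ℂ) - (B (Complex.I • v) w : ℂ)) / 4) * Complex.I_sq

lemma leviForm_smul_right (B : E n →L[ℝ] E n →L[ℝ] ℝ) (c : ℂ) (v w : E n) :
    leviForm B v (c • w) = conj c * leviForm B v w := by
  have h2 : Complex.I • (c • w) = c.re • (Complex.I • w) + c.im • (-w) := by
    rw [complex_smul_eq c w, smul_add, smul_comm Complex.I c.re, smul_comm Complex.I c.im,
      I_smul_I_smul]
  unfold leviForm
  rw [h2, complex_smul_eq c w]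
  simp only [map_add, map_smul, map_neg, smul_eq_mul]
  have hc : conj c = (c.re : ℂ) - (c.im : ℂ) * Complex.I := by
    conv_lhs => rw [← Complex.re_add_im c]
    simp only [map_add, map_mul, Complex.conj_ofReal, Complex.conj_I]
    ring
  rw [hc]
  push_cast
  linear_combination ((c.im : ℂ) * ((B v (Complex.I • w) : ℂ) - (B (Complex.I • v) w : ℂ)) / 4) * Complex.I_sq

lemma leviForm_sum (B : E n →L[ℝ] E n →L[ℝ] ℝ) (w : E n) :
    leviForm B w w = ∑ i, ∑ j, w i * conj (w j) * leviForm B (e i) (e j) := by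
  have hw : w = ∑ i, w i • e i := by
    have := (EuclideanSpace.basisFun (Fin n) ℂ).sum_repr w
    simpa [e] using this.symm
  have hl : ∀ (s : Finset (Fin n)) (v : E n), leviForm B (∑ i ∈ s, w i • e i) v =
      ∑ i ∈ s, w i * leviForm B (e i) v := by
    intro s v
    induction s using Finset.induction_on with
    | empty => simp [leviForm]
    | insert a s ha ih => rw [Finset.sum_insert ha, Finset.sum_insert ha, leviForm_add_left, ih,
        leviForm_smul_left]
  have hr : ∀ (s : Finset (Fin n)) (v : E n), leviForm B v (∑ i ∈ s, w i • e i) =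
      ∑ i ∈ s, conj (w i) * leviForm B v (e i) := by
    intro s v
    induction s using Finset.induction_on with
    | empty => simp [leviForm]
    | insert a s ha ih => rw [Finset.sum_insert ha, Finset.sum_insert ha, leviForm_add_right, ih,
        leviForm_smul_right]
  conv_lhs => rw [hw]
  rw [hl]
  refine Finset.sum_congr rfl fun i _ => ?_
  rw [hr, Finset.mul_sum]
  refine Finset.sum_congr rfl fun j _ => ?_
  ring

lemma leviForm_re (B : E n →L[ℝ] E n →L[ℝ] ℝ) (w : E n) :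
    (leviForm B w w).re = (B w w + B (Complex.I • w) (Complex.I • w)) / 4 := by
  unfold leviForm
  simp

lemma complexHessian_apply (f : E n → ℝ) (z : E n) (i j : Fin n) :
    complexHessian f z i j = leviForm (fderiv ℝ (fderiv ℝ f) z) (e i) (e j) := rfl

/-- coordinatewise conjugate -/
noncomputable def cj (x : Fin n → ℂ) : E n := WithLp.toLp 2 fun i => conj (x i)

lemma cj_apply (x : Fin n → ℂ) (i : Fin n) : cj x i = conj (x i) := rfl

lemma quad_eq (f : E n → ℝ) (z : E n) (x : Fin n → ℂ) :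
    star x ⬝ᵥ (complexHessian f z).mulVec x =
      leviForm (fderiv ℝ (fderiv ℝ f) z) (cj x) (cj x) := by
  rw [leviForm_sum]
  simp only [dotProduct, Matrix.mulVec, Finset.mul_sum, complexHessian_apply, cj_apply,
    Complex.conj_conj, Pi.star_apply, RCLike.star_def]
  refine Finset.sum_congr rfl fun i _ => Finset.sum_congr rfl fun j _ => ?_
  ring

lemma levi_pos_of_posDef {f : E n → ℝ} {z : E n} (h : (complexHessian f z).PosDef) {w : E n}
    (hw : w ≠ 0) : 0 < D2 f z w w + D2 f z (Complex.I • w) (Complex.I • w) := by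
  have hx : (fun i => conj (w i) : Fin n → ℂ) ≠ 0 := by
    intro h0
    refine hw (PiLp.ext fun i => ?_)
    have := congrFun h0 i
    simpa using this
  have h1 := h.re_dotProduct_pos hx
  rw [quad_eq] at h1
  have h2 : cj (fun i => conj (w i)) = w := PiLp.ext fun i => by
    rw [cj_apply, Complex.conj_conj]
  rw [h2] at h1
  have h3 : 0 < (leviForm (fderiv ℝ (fderiv ℝ f) z) w w).re := h1
  rw [leviForm_re] at h3
  have h4 : D2 f z w w + D2 f z (Complex.I • w) (Complex.I • w) =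
      fderiv ℝ (fderiv ℝ f) z w w + fderiv ℝ (fderiv ℝ f) z (Complex.I • w) (Complex.I • w) := rfl
  rw [h4]
  linarith

lemma det_le_of_levi_le {f : E n → ℝ} {z : E n} (h : (complexHessian f z).PosDef) {c : ℝ}
    (hc : ∀ w : E n, D2 f z w w + D2 f z (Complex.I • w) (Complex.I • w) ≤ 4 * c * ‖w‖ ^ 2) :
    0 < (complexHessian f z).det.re ∧ (complexHessian f z).det.re ≤ c ^ n := by
  have hpos := h.eigenvalues_pos
  have hle : ∀ i, h.1.eigenvalues i ≤ c := by
    intro i
    rw [h.1.eigenvalues_eq i, quad_eq]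
    set x := (h.1.eigenvectorBasis i).ofLp with hx
    have hn : ‖cj x‖ = 1 := by
      have h1 : ‖h.1.eigenvectorBasis i‖ = 1 := h.1.eigenvectorBasis.orthonormal.1 i
      rw [← h1, EuclideanSpace.norm_eq, EuclideanSpace.norm_eq]
      congr 1
      refine Finset.sum_congr rfl fun j _ => ?_
      rw [cj_apply, RCLike.norm_conj]
    have h2 : RCLike.re (leviForm (fderiv ℝ (fderiv ℝ f) z) (cj x) (cj x)) =
        (leviForm (fderiv ℝ (fderiv ℝ f) z) (cj x) (cj x)).re := rfl
    rw [h2, leviForm_re]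
    have h3 := hc (cj x)
    rw [hn] at h3
    have h4 : D2 f z (cj x) (cj x) + D2 f z (Complex.I • (cj x)) (Complex.I • (cj x)) =
      fderiv ℝ (fderiv ℝ f) z (cj x) (cj x) +
        fderiv ℝ (fderiv ℝ f) z (Complex.I • (cj x)) (Complex.I • (cj x)) := rfl
    rw [h4] at h3
    linarith
  have hdet : (complexHessian f z).det.re = ∏ i, h.1.eigenvalues i := by
    rw [h.1.det_eq_prod_eigenvalues]
    have : (∏ i, ((h.1.eigenvalues i : ℝ) : ℂ)) = ((∏ i, h.1.eigenvalues i : ℝ) : ℂ) := by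
      push_cast; rfl
    have h5 := congrArg Complex.re this
    rw [Complex.ofReal_re] at h5
    exact h5
  rw [hdet]
  refine ⟨Finset.prod_pos fun i _ => hpos i, ?_⟩
  calc ∏ i, h.1.eigenvalues i ≤ ∏ _i : Fin n, c :=
        Finset.prod_le_prod (fun i _ => (hpos i).le) fun i _ => hle i
    _ = c ^ n := by simp

end Levi

/-! ### The sub-mean value inequality -/

lemma swap_integrals {F : ℝ → ℝ → ℝ} {a b c d : ℝ} (hab : a ≤ b) (hcd : c ≤ d)
    (hF : ContinuousOn (Function.uncurry F) (Icc a b ×ˢ Icc c d)) :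
    ∫ x in a..b, ∫ y in c..d, F x y = ∫ y in c..d, ∫ x in a..b, F x y := by
  simp only [intervalIntegral.integral_of_le hab, intervalIntegral.integral_of_le hcd]
  refine integral_integral_swap ?_
  rw [Measure.prod_restrict, ← Measure.volume_eq_prod]
  exact (hF.integrableOn_compact (isCompact_Icc.prod isCompact_Icc)).mono_set
    (prod_mono Ioc_subset_Icc_self Ioc_subset_Icc_self)

/-- the point `exp (i θ)` -/
noncomputable def cis (θ : ℝ) : ℂ := Complex.exp (θ * Complex.I)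

lemma cis_norm (θ : ℝ) : ‖cis θ‖ = 1 := Complex.norm_exp_ofReal_mul_I θ

lemma cis_hasDerivAt (θ : ℝ) : HasDerivAt cis (Complex.I * cis θ) θ := by
  unfold cis
  have h : HasDerivAt (fun θ : ℝ => (θ : ℂ) * Complex.I) (1 * Complex.I) θ :=
    (Complex.ofRealCLM.hasDerivAt (x := θ)).mul_const Complex.I
  refine h.cexp.congr_deriv ?_
  ring

lemma cis_continuous : Continuous cis := by unfold cis; fun_prop

lemma cis_two_pi : cis (2 * Real.pi) = cis 0 := by
  unfold cis
  push_cast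
  rw [Complex.exp_two_pi_mul_I, zero_mul, Complex.exp_zero]

lemma circle_submean {n : ℕ} {f : E n → ℝ} {U : Set (E n)} (hU : IsOpen U)
    (hf : ContDiffOn ℝ ∞ f U)
    (hpsh : ∀ y ∈ U, ∀ v : E n, 0 ≤ D2 f y v v + D2 f y (Complex.I • v) (Complex.I • v))
    {z w : E n} (hzw : ∀ ζ : ℂ, ‖ζ‖ ≤ 1 → z + ζ • w ∈ U) :
    2 * Real.pi * f z ≤ ∫ θ in (0 : ℝ)..(2 * Real.pi), f (z + cis θ • w) := by
  have hpi : (0 : ℝ) ≤ 2 * Real.pi := by positivity
  -- derivatives
  have hf1 : ContDiffOn ℝ ∞ (fderiv ℝ f) U := hf.fderiv_of_isOpen hU (by simp)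
  have hf2 : ContDiffOn ℝ ∞ (fderiv ℝ (fderiv ℝ f)) U := hf1.fderiv_of_isOpen hU (by simp)
  have hd0 : ∀ y ∈ U, HasFDerivAt f (fderiv ℝ f y) y := fun y hy =>
    ((hf.contDiffAt (hU.mem_nhds hy)).differentiableAt (by simp)).hasFDerivAt
  have hd1 : ∀ y ∈ U, HasFDerivAt (fderiv ℝ f) (fderiv ℝ (fderiv ℝ f) y) y := fun y hy =>
    ((hf1.contDiffAt (hU.mem_nhds hy)).differentiableAt (by simp)).hasFDerivAt
  set γ : ℝ → ℝ → E n := fun r θ => z + ((r : ℂ) * cis θ) • w with hγ
  have hγU : ∀ r ∈ Icc (0 : ℝ) 1, ∀ θ, γ r θ ∈ U := by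
    intro r hr θ
    refine hzw _ ?_
    rw [norm_mul, cis_norm, mul_one, Complex.norm_real, Real.norm_eq_abs, abs_of_nonneg hr.1]
    exact hr.2
  have hγc : Continuous fun p : ℝ × ℝ => γ p.1 p.2 := by
    have := cis_continuous
    simp only [hγ]
    fun_prop
  have hγr : ∀ r θ, HasDerivAt (fun r => γ r θ) (cis θ • w) r := by
    intro r θ
    have h : HasDerivAt (fun r : ℝ => (r : ℂ) * cis θ) (1 * cis θ) r :=
      (Complex.ofRealCLM.hasDerivAt (x := r)).mul_const _
    rw [one_mul] at h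
    exact (h.smul_const w).const_add z
  have hγθ : ∀ r θ, HasDerivAt (fun θ => γ r θ) (((r : ℂ) * (Complex.I * cis θ)) • w) θ := by
    intro r θ
    exact (((cis_hasDerivAt θ).const_mul (r : ℂ)).smul_const w).const_add z
  -- continuity of the relevant functions
  have hC0 : ContinuousOn (fun p : ℝ × ℝ => fderiv ℝ f (γ p.1 p.2)) (Icc 0 1 ×ˢ Icc 0 (2 * Real.pi)) :=
    hf1.continuousOn.comp hγc.continuousOn fun p hp => hγU p.1 hp.1 p.2
  have hC1 : ContinuousOn (fun p : ℝ × ℝ => fderiv ℝ (fderiv ℝ f) (γ p.1 p.2))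
      (Icc 0 1 ×ˢ Icc 0 (2 * Real.pi)) :=
    hf2.continuousOn.comp hγc.continuousOn fun p hp => hγU p.1 hp.1 p.2
  have hcis := cis_continuous
  set Pf : ℝ → ℝ → ℝ := fun r θ => fderiv ℝ f (γ r θ) (((r : ℂ) * cis θ) • w) with hPf
  set Pr : ℝ → ℝ → ℝ := fun r θ => fderiv ℝ (fderiv ℝ f) (γ r θ) (cis θ • w) (((r : ℂ) * cis θ) • w) +
    fderiv ℝ f (γ r θ) (cis θ • w) with hPr
  set Qf : ℝ → ℝ → ℝ := fun r θ => fderiv ℝ f (γ r θ) ((Complex.I * cis θ) • w) with hQf
  set Qt : ℝ → ℝ → ℝ := fun r θ =>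
    fderiv ℝ (fderiv ℝ f) (γ r θ) (((r : ℂ) * (Complex.I * cis θ)) • w) ((Complex.I * cis θ) • w) +
    fderiv ℝ f (γ r θ) ((Complex.I * (Complex.I * cis θ)) • w) with hQt
  set Rf : ℝ → ℝ → ℝ := fun r θ => fderiv ℝ f (γ r θ) (cis θ • w) with hRf
  have cPr : ContinuousOn (Function.uncurry Pr) (Icc 0 1 ×ˢ Icc 0 (2 * Real.pi)) := by
    simp only [hPr, Function.uncurry_def]
    exact ((hC1.clm_apply (by fun_prop)).clm_apply (by fun_prop)).add (hC0.clm_apply (by fun_prop))
  have cQt : ContinuousOn (Function.uncurry Qt) (Icc 0 1 ×ˢ Icc 0 (2 * Real.pi)) := by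
    simp only [hQt, Function.uncurry_def]
    exact ((hC1.clm_apply (by fun_prop)).clm_apply (by fun_prop)).add (hC0.clm_apply (by fun_prop))
  have cRf : ContinuousOn (Function.uncurry Rf) (Icc 0 1 ×ˢ Icc 0 (2 * Real.pi)) := by
    simp only [hRf, Function.uncurry_def]
    exact hC0.clm_apply (by fun_prop)
  -- slices
  have slice_r : ∀ {F : ℝ → ℝ → ℝ}, ContinuousOn (Function.uncurry F) (Icc 0 1 ×ˢ Icc 0 (2 * Real.pi)) →
      ∀ θ ∈ Icc 0 (2 * Real.pi), ∀ R ∈ Icc (0 : ℝ) 1, IntervalIntegrable (fun r => F r θ) volume 0 R := by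
    intro F hF θ hθ R hR
    refine ContinuousOn.intervalIntegrable ?_
    rw [uIcc_of_le hR.1]
    exact hF.comp (by fun_prop : ContinuousOn (fun r : ℝ => (r, θ)) _) fun r hr =>
      ⟨⟨hr.1, hr.2.trans hR.2⟩, hθ⟩
  have slice_θ : ∀ {F : ℝ → ℝ → ℝ}, ContinuousOn (Function.uncurry F) (Icc 0 1 ×ˢ Icc 0 (2 * Real.pi)) →
      ∀ r ∈ Icc (0 : ℝ) 1, IntervalIntegrable (fun θ => F r θ) volume 0 (2 * Real.pi) := by
    intro F hF r hr
    refine ContinuousOn.intervalIntegrable ?_
    rw [uIcc_of_le hpi]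
    exact hF.comp (by fun_prop : ContinuousOn (fun θ : ℝ => (r, θ)) _) fun θ hθ => ⟨hr, hθ⟩
  -- derivatives
  have dP : ∀ r ∈ Icc (0 : ℝ) 1, ∀ θ, HasDerivAt (fun r => Pf r θ) (Pr r θ) r := by
    intro r hr θ
    have h1 : HasDerivAt (fun r => fderiv ℝ f (γ r θ)) (fderiv ℝ (fderiv ℝ f) (γ r θ) (cis θ • w)) r :=
      HasFDerivAt.comp_hasDerivAt (f := fun r => γ r θ) r (hd1 _ (hγU r hr θ)) (hγr r θ)
    have h2 : HasDerivAt (fun r : ℝ => ((r : ℂ) * cis θ) • w) (cis θ • w) r := by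
      have h : HasDerivAt (fun r : ℝ => (r : ℂ) * cis θ) (1 * cis θ) r :=
        (Complex.ofRealCLM.hasDerivAt (x := r)).mul_const _
      rw [one_mul] at h
      exact h.smul_const w
    exact h1.clm_apply h2
  have dQ : ∀ r ∈ Icc (0 : ℝ) 1, ∀ θ, HasDerivAt (fun θ => Qf r θ) (Qt r θ) θ := by
    intro r hr θ
    have h1 : HasDerivAt (fun θ => fderiv ℝ f (γ r θ))
        (fderiv ℝ (fderiv ℝ f) (γ r θ) (((r : ℂ) * (Complex.I * cis θ)) • w)) θ :=
      HasFDerivAt.comp_hasDerivAt (f := fun θ => γ r θ) θ (hd1 _ (hγU r hr θ)) (hγθ r θ)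
    have h2 : HasDerivAt (fun θ : ℝ => (Complex.I * cis θ) • w) ((Complex.I * (Complex.I * cis θ)) • w) θ :=
      ((cis_hasDerivAt θ).const_mul Complex.I).smul_const w
    exact h1.clm_apply h2
  have dR : ∀ r ∈ Icc (0 : ℝ) 1, ∀ θ, HasDerivAt (fun r => f (γ r θ)) (Rf r θ) r := by
    intro r hr θ
    exact HasFDerivAt.comp_hasDerivAt (f := fun r => γ r θ) r (hd0 _ (hγU r hr θ)) (hγr r θ)
  -- positivity of the divergence
  have hdiv : ∀ r ∈ Icc (0 : ℝ) 1, ∀ θ, 0 ≤ Pr r θ + Qt r θ := by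
    intro r hr θ
    have e1 : ((r : ℂ) * cis θ) • w = r • (cis θ • w) := by rw [mul_smul]; rfl
    have e2 : ((r : ℂ) * (Complex.I * cis θ)) • w = r • (Complex.I • (cis θ • w)) := by
      rw [mul_smul, mul_smul]; rfl
    have e3 : (Complex.I * cis θ) • w = Complex.I • (cis θ • w) := mul_smul _ _ _
    have e4 : (Complex.I * (Complex.I * cis θ)) • w = -(cis θ • w) := by
      rw [mul_smul, mul_smul, I_smul_I_smul]
    simp only [hPr, hQt]
    rw [e4, e2, e3, e1]
    simp only [map_smul, smul_apply, map_neg, smul_eq_mul]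
    have h := hpsh (γ r θ) (hγU r hr θ) (cis θ • w)
    unfold D2 at h
    nlinarith [hr.1]
  have hQper : ∀ r ∈ Icc (0 : ℝ) 1, ∫ θ in (0 : ℝ)..(2 * Real.pi), Qt r θ = 0 := by
    intro r hr
    rw [intervalIntegral.integral_eq_sub_of_hasDerivAt (fun θ _ => dQ r hr θ) (slice_θ cQt r hr)]
    simp only [hQf, hγ, cis_two_pi, sub_self]
  have hPrpos : ∀ r ∈ Icc (0 : ℝ) 1, 0 ≤ ∫ θ in (0 : ℝ)..(2 * Real.pi), Pr r θ := by
    intro r hr
    have h1 : ∫ θ in (0 : ℝ)..(2 * Real.pi), Pr r θ =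
        ∫ θ in (0 : ℝ)..(2 * Real.pi), (Pr r θ + Qt r θ) := by
      rw [intervalIntegral.integral_add (slice_θ cPr r hr) (slice_θ cQt r hr), hQper r hr, add_zero]
    rw [h1]
    exact intervalIntegral.integral_nonneg hpi fun θ _ => hdiv r hr θ
  have hB : ∀ R ∈ Icc (0 : ℝ) 1, 0 ≤ ∫ θ in (0 : ℝ)..(2 * Real.pi), Pf R θ := by
    intro R hR
    have h1 : ∫ θ in (0 : ℝ)..(2 * Real.pi), Pf R θ =
        ∫ θ in (0 : ℝ)..(2 * Real.pi), ∫ r in (0 : ℝ)..R, Pr r θ := by
      refine intervalIntegral.integral_congr fun θ hθ => ?_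
      rw [uIcc_of_le hpi] at hθ
      have h2 := intervalIntegral.integral_eq_sub_of_hasDerivAt (a := 0) (b := R)
        (f := fun r => Pf r θ) (f' := fun r => Pr r θ)
        (fun r hr => dP r (by rw [uIcc_of_le hR.1] at hr; exact ⟨hr.1, hr.2.trans hR.2⟩) θ)
        (slice_r cPr θ hθ R hR)
      simp only [h2]
      simp [hPf]
    rw [h1, ← swap_integrals hR.1 hpi (cPr.mono (prod_mono (Icc_subset_Icc le_rfl hR.2) le_rfl))]
    exact intervalIntegral.integral_nonneg hR.1 fun r hr => hPrpos r ⟨hr.1, hr.2.trans hR.2⟩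
  have hRpos : 0 ≤ ∫ r in (0 : ℝ)..1, ∫ θ in (0 : ℝ)..(2 * Real.pi), Rf r θ := by
    rw [intervalIntegral.integral_of_le zero_le_one]
    refine setIntegral_nonneg measurableSet_Ioc fun r hr => ?_
    have h1 := hB r ⟨hr.1.le, hr.2⟩
    have h2 : ∫ θ in (0 : ℝ)..(2 * Real.pi), Pf r θ = r * ∫ θ in (0 : ℝ)..(2 * Real.pi), Rf r θ := by
      rw [← intervalIntegral.integral_const_mul]
      refine intervalIntegral.integral_congr fun θ _ => ?_
      have e1 : ((r : ℂ) * cis θ) • w = r • (cis θ • w) := by rw [mul_smul]; rfl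
      simp only [hPf, hRf, e1, map_smul, smul_eq_mul]
    rw [h2] at h1
    exact nonneg_of_mul_nonneg_right h1 hr.1
  have h1mem : (1 : ℝ) ∈ Icc (0 : ℝ) 1 := ⟨zero_le_one, le_rfl⟩
  have hfinal : ∀ θ ∈ Icc (0 : ℝ) (2 * Real.pi), f (z + cis θ • w) = f z + ∫ r in (0 : ℝ)..1, Rf r θ := by
    intro θ hθ
    rw [intervalIntegral.integral_eq_sub_of_hasDerivAt (a := 0) (b := 1)
        (f := fun r => f (γ r θ)) (f' := fun r => Rf r θ)
        (fun r hr => dR r (by rw [uIcc_of_le zero_le_one] at hr; exact hr) θ)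
        (slice_r cRf θ hθ 1 h1mem)]
    simp [hγ]
  have e1 : ∫ θ in (0 : ℝ)..(2 * Real.pi), f (z + cis θ • w) =
      ∫ θ in (0 : ℝ)..(2 * Real.pi), (f z + ∫ r in (0 : ℝ)..1, Rf r θ) := by
    refine intervalIntegral.integral_congr fun θ hθ => ?_
    rw [uIcc_of_le hpi] at hθ
    exact hfinal θ hθ
  have hcont : ContinuousOn (fun θ => f (z + cis θ • w)) (Icc 0 (2 * Real.pi)) := by
    refine hf.continuousOn.comp (by fun_prop) fun θ _ => hzw _ (by rw [cis_norm])
  have hint : IntervalIntegrable (fun θ => ∫ r in (0 : ℝ)..1, Rf r θ) volume 0 (2 * Real.pi) := by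
    refine ContinuousOn.intervalIntegrable ?_
    rw [uIcc_of_le hpi]
    refine (hcont.sub (continuousOn_const (c := f z))).congr fun θ hθ => ?_
    have h9 := hfinal θ hθ
    simp only [Pi.sub_apply]
    linarith
  rw [e1, intervalIntegral.integral_add (by simp) hint, intervalIntegral.integral_const, sub_zero,
    smul_eq_mul, ← swap_integrals zero_le_one hpi cRf]
  linarith

/-- multiplication by `exp (i θ)` as a real linear isometry -/
noncomputable def rot {n : ℕ} (θ : ℝ) : E n ≃ₗᵢ[ℝ] E n where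
  toLinearEquiv := (LinearEquiv.smulOfNeZero ℂ (E n) (cis θ) (by
    intro h; have := cis_norm θ; rw [h, norm_zero] at this; exact zero_ne_one this)).restrictScalars ℝ
  norm_map' := fun w => by
    show ‖cis θ • w‖ = ‖w‖
    rw [norm_smul, cis_norm, one_mul]

lemma rot_apply {n : ℕ} (θ : ℝ) (w : E n) : rot θ w = cis θ • w := rfl

lemma ball_submean {n : ℕ} {f : E n → ℝ} {U : Set (E n)} (hU : IsOpen U)
    (hf : ContDiffOn ℝ ∞ f U)
    (hpsh : ∀ y ∈ U, ∀ v : E n, 0 ≤ D2 f y v v + D2 f y (Complex.I • v) (Complex.I • v))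
    {z : E n} {r : ℝ} (hzr : closedBall z r ⊆ U) :
    volume.real (closedBall (0 : E n) r) * f z ≤ ∫ y in closedBall z r, f y := by
  have hpi : (0 : ℝ) < 2 * Real.pi := by positivity
  have hin : ∀ w ∈ closedBall (0 : E n) r, ∀ ζ : ℂ, ‖ζ‖ ≤ 1 → z + ζ • w ∈ closedBall z r := by
    intro w hw ζ hζ
    rw [mem_closedBall, dist_eq_norm, add_sub_cancel_left, norm_smul]
    rw [mem_closedBall, dist_zero_right] at hw
    calc ‖ζ‖ * ‖w‖ ≤ 1 * ‖w‖ := mul_le_mul_of_nonneg_right hζ (norm_nonneg _)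
      _ ≤ r := by rw [one_mul]; exact hw
  have hcirc : ∀ w ∈ closedBall (0 : E n) r,
      2 * Real.pi * f z ≤ ∫ θ in (0 : ℝ)..(2 * Real.pi), f (z + cis θ • w) := fun w hw =>
    circle_submean hU hf hpsh fun ζ hζ => hzr (hin w hw ζ hζ)
  have hcis := cis_continuous
  have hc2 : ContinuousOn (fun p : ℝ × E n => f (z + cis p.1 • p.2))
      (Icc 0 (2 * Real.pi) ×ˢ closedBall (0 : E n) r) :=
    hf.continuousOn.comp (by fun_prop) fun p hp => hzr (hin p.2 hp.2 _ (by rw [cis_norm]))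
  have hcompact : IsCompact (Icc 0 (2 * Real.pi) ×ˢ closedBall (0 : E n) r) :=
    isCompact_Icc.prod (isCompact_closedBall _ _)
  have hprod : Integrable (Function.uncurry fun (θ : ℝ) (w : E n) => f (z + cis θ • w))
      ((volume.restrict (uIoc 0 (2 * Real.pi))).prod (volume.restrict (closedBall (0 : E n) r))) := by
    rw [uIoc_of_le hpi.le, Measure.prod_restrict, ← Measure.volume_eq_prod]
    exact (hc2.integrableOn_compact hcompact).mono_set (prod_mono Ioc_subset_Icc_self le_rfl)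
  have hswap := intervalIntegral_integral_swap hprod
  -- each rotation preserves the integral
  have hrot : ∀ θ : ℝ, ∫ w in closedBall (0 : E n) r, f (z + cis θ • w) =
      ∫ w in closedBall (0 : E n) r, f (z + w) := by
    intro θ
    have h := (rot (n := n) θ).measurePreserving.setIntegral_preimage_emb
      (rot (n := n) θ).toHomeomorph.measurableEmbedding (fun w => f (z + w)) (closedBall (0 : E n) r)
    have hpre : (rot (n := n) θ) ⁻¹' closedBall (0 : E n) r = closedBall (0 : E n) r := by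
      ext w
      simp [mem_closedBall]
    rw [hpre] at h
    exact h
  have htrans : ∫ w in closedBall (0 : E n) r, f (z + w) = ∫ y in closedBall z r, f y := by
    have h := (measurePreserving_add_left (volume : Measure (E n)) z).setIntegral_preimage_emb
      (Homeomorph.addLeft z).measurableEmbedding f (closedBall z r)
    have hpre : (fun x => z + x) ⁻¹' closedBall z r = closedBall (0 : E n) r := by
      ext w
      simp [mem_closedBall, dist_eq_norm]
    rw [hpre] at h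
    exact h
  have hint : IntegrableOn (fun w => ∫ θ in (0 : ℝ)..(2 * Real.pi), f (z + cis θ • w))
      (closedBall (0 : E n) r) := by
    have h := hprod.integral_prod_right
    simp only [Function.uncurry_apply_pair] at h
    refine h.congr (Eventually.of_forall fun w => ?_)
    simp only
    rw [intervalIntegral.integral_of_le hpi.le, uIoc_of_le hpi.le]
  have hconst : IntegrableOn (fun _ : E n => 2 * Real.pi * f z) (closedBall (0 : E n) r) :=
    integrableOn_const (hs := measure_closedBall_lt_top.ne)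
  have hmono : ∫ _w in closedBall (0 : E n) r, 2 * Real.pi * f z ≤
      ∫ w in closedBall (0 : E n) r, ∫ θ in (0 : ℝ)..(2 * Real.pi), f (z + cis θ • w) :=
    setIntegral_mono_on hconst hint measurableSet_closedBall hcirc
  rw [← hswap, setIntegral_const, smul_eq_mul] at hmono
  simp only [hrot, htrans] at hmono
  rw [intervalIntegral.integral_const, sub_zero, smul_eq_mul] at hmono
  have : 2 * Real.pi * (volume.real (closedBall (0 : E n) r) * f z) ≤
      2 * Real.pi * ∫ y in closedBall z r, f y := by linarith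
  exact le_of_mul_le_mul_left this hpi

/-! ### Second derivatives at interior maxima -/

lemma D2_le_of_isLocalMax {n : ℕ} {f : E n → ℝ} {U : Set (E n)} (hU : IsOpen U)
    (hf : ContDiffOn ℝ ∞ f U) {z w : E n} (hz : z ∈ U) {α β : ℝ}
    (h : IsLocalMax (fun t : ℝ => f (z + t • w) - (α * t + β * t ^ 2)) 0) :
    D2 f z w w ≤ 2 * β := by
  have hf1 : ContDiffOn ℝ ∞ (fderiv ℝ f) U := hf.fderiv_of_isOpen hU (by simp)
  have hd0 : ∀ y ∈ U, HasFDerivAt f (fderiv ℝ f y) y := fun y hy =>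
    ((hf.contDiffAt (hU.mem_nhds hy)).differentiableAt (by simp)).hasFDerivAt
  have hd1 : ∀ y ∈ U, HasFDerivAt (fderiv ℝ f) (fderiv ℝ (fderiv ℝ f) y) y := fun y hy =>
    ((hf1.contDiffAt (hU.mem_nhds hy)).differentiableAt (by simp)).hasFDerivAt
  have hline : ∀ t : ℝ, HasDerivAt (fun t : ℝ => z + t • w) w t := fun t => by
    simpa using ((hasDerivAt_id t).smul_const w).const_add z
  have hc : Continuous fun t : ℝ => z + t • w := by fun_prop
  have hev : ∀ᶠ t : ℝ in 𝓝 0, z + t • w ∈ U := by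
    refine hc.continuousAt.eventually_mem ?_
    simp only [zero_smul, add_zero]
    exact hU.mem_nhds hz
  have hq : ∀ t : ℝ, HasDerivAt (fun t : ℝ => α * t + β * t ^ 2) (α + 2 * β * t) t := by
    intro t
    have h1 := ((hasDerivAt_id t).const_mul α).add (((hasDerivAt_id t).pow 2).const_mul β)
    refine h1.congr_deriv ?_
    simp
    ring
  have h1 : ∀ᶠ t : ℝ in 𝓝 0, HasDerivAt (fun t : ℝ => f (z + t • w) - (α * t + β * t ^ 2))
      (fderiv ℝ f (z + t • w) w - (α + 2 * β * t)) t := by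
    filter_upwards [hev] with t ht
    exact (HasFDerivAt.comp_hasDerivAt (f := fun t : ℝ => z + t • w) t (hd0 _ ht) (hline t)).sub (hq t)
  have h2 : HasDerivAt (fun t : ℝ => fderiv ℝ f (z + t • w) w - (α + 2 * β * t))
      (D2 f z w w - 2 * β) 0 := by
    have h3 : HasDerivAt (fun t : ℝ => fderiv ℝ f (z + t • w)) (fderiv ℝ (fderiv ℝ f) (z + (0 : ℝ) • w) w) 0 :=
      HasFDerivAt.comp_hasDerivAt (f := fun t : ℝ => z + t • w) 0
        (hd1 _ (by simpa using hz)) (hline 0)
    have h4 := h3.clm_apply (hasDerivAt_const (0 : ℝ) w)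
    have h5 : HasDerivAt (fun t : ℝ => α + 2 * β * t) (2 * β) 0 := by
      simpa using ((hasDerivAt_id (0 : ℝ)).const_mul (2 * β)).const_add α
    refine (h4.sub h5).congr_deriv ?_
    simp [D2]
  have := second_deriv_nonpos h1 h2 h
  linarith

/-! ### Consequences for solutions on the unit ball -/

section Solution

variable {n : ℕ} {T a : ℝ} {u : E n × ℝ → ℝ}

lemma sol_slice (h : IsFlowSolution (ball (0 : E n) 1) T (logPole a) (fun _ => 0) u) {t : ℝ}
    (ht : t ∈ Ioo 0 T) : ContinuousOn (fun y => u (y, t)) (closedBall 0 1) ∧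
      ContDiffOn ℝ ∞ (fun y => u (y, t)) (ball (0 : E n) 1) := by
  have hs := h.smooth
  rw [closure_ball (0 : E n) one_ne_zero] at hs
  constructor
  · exact hs.continuousOn.comp (by fun_prop) fun y hy => ⟨hy, ht⟩
  · exact hs.comp (by fun_prop : ContDiffOn ℝ ∞ (fun y : E n => (y, t)) (ball (0 : E n) 1))
      fun y hy => ⟨ball_subset_closedBall hy, ht⟩

lemma sol_levi (h : IsFlowSolution (ball (0 : E n) 1) T (logPole a) (fun _ => 0) u) {t : ℝ}
    (ht : t ∈ Ioo 0 T) : ∀ y ∈ ball (0 : E n) 1, ∀ v : E n,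
      0 ≤ D2 (fun y => u (y, t)) y v v +
        D2 (fun y => u (y, t)) y (Complex.I • v) (Complex.I • v) := by
  intro y hy v
  by_cases hv : v = 0
  · subst hv
    simp [D2]
  · exact (levi_pos_of_posDef (h.psh t ht y hy) hv).le

lemma sol_nonpos (hn : 0 < n) (h : IsFlowSolution (ball (0 : E n) 1) T (logPole a) (fun _ => 0) u)
    {t : ℝ} (ht : t ∈ Ioo 0 T) : ∀ y ∈ closedBall (0 : E n) 1, u (y, t) ≤ 0 := by
  obtain ⟨hc, hd⟩ := sol_slice h ht
  obtain ⟨z, hz, hmax⟩ := (isCompact_closedBall (0 : E n) 1).exists_isMaxOn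
    ⟨0, mem_closedBall_self zero_le_one⟩ hc
  intro y hy
  refine (hmax hy).trans ?_
  show u (z, t) ≤ 0
  rcases (mem_closedBall.1 hz).lt_or_eq with hlt | heq
  · exfalso
    have hzb : z ∈ ball (0 : E n) 1 := mem_ball.2 hlt
    have hloc : ∀ w : E n, D2 (fun y => u (y, t)) z w w ≤ 2 * 0 := by
      intro w
      refine D2_le_of_isLocalMax isOpen_ball hd hzb (α := 0) ?_
      have hc : Continuous fun s : ℝ => z + s • w := by fun_prop
      have hev : ∀ᶠ s : ℝ in 𝓝 0, z + s • w ∈ ball (0 : E n) 1 := by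
        refine hc.continuousAt.eventually_mem ?_
        simp only [zero_smul, add_zero]
        exact isOpen_ball.mem_nhds hzb
      filter_upwards [hev] with s hs
      have := hmax (ball_subset_closedBall hs)
      simpa using this
    have hne : e (⟨0, hn⟩ : Fin n) ≠ 0 := by
      intro h0
      have := congrArg (fun v : E n => v ⟨0, hn⟩) h0
      simp [e] at this
    have h1 := levi_pos_of_posDef (h.psh t ht z hzb) hne
    have h2 := hloc (e ⟨0, hn⟩)
    have h3 := hloc (Complex.I • e ⟨0, hn⟩)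
    linarith
  · refine le_of_eq (h.boundary t ht z ?_)
    rw [frontier_ball (0 : E n) one_ne_zero]
    exact mem_sphere.2 heq

/-- the barrier -/
noncomputable def bar (n : ℕ) (a δ C : ℝ) (z : E n) (t : ℝ) : ℝ :=
  (a / 2 - n * t) * Real.log (‖z‖ ^ 2 + δ) + C * t

lemma bar_continuous {δ : ℝ} (hδ : 0 < δ) (C : ℝ) :
    Continuous fun p : ℝ × E n => bar n a δ C p.2 p.1 := by
  unfold bar
  have h : Continuous fun p : ℝ × E n => Real.log (‖p.2‖ ^ 2 + δ) :=
    Continuous.log (by fun_prop) fun p => by positivity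
  fun_prop

lemma logPole_lt (ha : 0 < a) {y : E n} {M : ℝ} {A : ℝ} (hA : ‖y‖ ^ 2 < A)
    (hM : a / 2 * Real.log A = M) : logPole a y < ((M : ℝ) : EReal) := by
  unfold logPole
  split_ifs with hy
  · exact EReal.bot_lt_coe M
  · rw [EReal.coe_lt_coe_iff, ← hM]
    have hpos : 0 < ‖y‖ := norm_pos_iff.2 hy
    have h1 : Real.log (‖y‖ ^ 2) < Real.log A := Real.log_lt_log (by positivity) hA
    rw [Real.log_pow] at h1
    push_cast at h1
    nlinarith

/-- uniform control of the initial layer -/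
lemma initial_layer (hn : 0 < n) (hT : 0 < T) (ha : 0 < a)
    (h : IsFlowSolution (ball (0 : E n) 1) T (logPole a) (fun _ => 0) u) {δ : ℝ} (hδ : 0 < δ)
    (C : ℝ) {η : ℝ} (hη : 0 < η) :
    ∀ᶠ s in 𝓝[>] (0 : ℝ), ∀ z ∈ closedBall (0 : E n) 1, u (z, s) ≤ bar n a δ C z s + η := by
  have hTev : ∀ᶠ s in 𝓝 (0 : ℝ), s < T := eventually_lt_nhds hT
  suffices H : ∀ᶠ s in 𝓝 (0 : ℝ), ∀ z ∈ closedBall (0 : E n) 1,
      (0 < s → z ∈ closedBall (0 : E n) 1 → u (z, s) ≤ bar n a δ C z s + η) by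
    rw [eventually_nhdsWithin_iff]
    filter_upwards [H] with s hs hs0 z hz
    exact hs z hz hs0 hz
  refine (isCompact_closedBall (0 : E n) 1).eventually_forall_of_forall_eventually
    (P := fun s z => 0 < s → z ∈ closedBall (0 : E n) 1 → u (z, s) ≤ bar n a δ C z s + η) ?_
  intro z₀ hz₀
  set M : ℝ := bar n a δ C z₀ 0 with hM
  have hM' : a / 2 * Real.log (‖z₀‖ ^ 2 + δ) = M := by
    rw [hM]; unfold bar; simp
  have hTev2 : ∀ᶠ p : ℝ × E n in 𝓝 (0, z₀), p.1 < T :=
    (continuous_fst.tendsto (0, z₀)).eventually hTev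
  have hbarev : ∀ᶠ p : ℝ × E n in 𝓝 (0, z₀), M - η / 2 < bar n a δ C p.2 p.1 :=
    (bar_continuous hδ C).continuousAt.eventually (lt_mem_nhds (by show M - η / 2 < bar n a δ C z₀ 0; linarith))
  rcases le_or_gt 0 M with hM0 | hM0
  · -- the barrier is nonnegative at `z₀`
    filter_upwards [hTev2, hbarev] with p hp1 hp2 hp3 hp4
    have := sol_nonpos hn h ⟨hp3, hp1⟩ p.2 hp4
    linarith
  · -- an interior point
    have hz1 : ‖z₀‖ ^ 2 + δ < 1 := by
      by_contra hge
      push Not at hge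
      have := Real.log_nonneg hge
      have : 0 ≤ M := by rw [← hM']; positivity
      linarith
    have hz2 : ‖z₀‖ < 1 := by nlinarith [norm_nonneg z₀]
    -- a small radius
    obtain ⟨r, hr, hr1, hr2⟩ : ∃ r : ℝ, 0 < r ∧ (∀ y ∈ closedBall z₀ (2 * r), y ∈ ball (0 : E n) 1) ∧
        ∀ y ∈ closedBall z₀ (2 * r), ‖y‖ ^ 2 < ‖z₀‖ ^ 2 + δ := by
      have h1a : ∀ᶠ y in 𝓝 z₀, y ∈ ball (0 : E n) 1 :=
        isOpen_ball.mem_nhds (by rwa [mem_ball_zero_iff])
      have h1b : ∀ᶠ y in 𝓝 z₀, ‖y‖ ^ 2 < ‖z₀‖ ^ 2 + δ :=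
        (by fun_prop : Continuous fun y : E n => ‖y‖ ^ 2).continuousAt.eventually
          (gt_mem_nhds (by show ‖z₀‖ ^ 2 < ‖z₀‖ ^ 2 + δ; linarith))
      obtain ⟨R, hR, hRs⟩ := Metric.nhds_basis_closedBall.eventually_iff.1 (h1a.and h1b)
      have e2 : 2 * (R / 2) = R := by ring
      refine ⟨R / 2, by positivity, fun y hy => (hRs (by rwa [e2] at hy)).1,
        fun y hy => (hRs (by rwa [e2] at hy)).2⟩
    set d : ℕ := Module.finrank ℝ (E n) with hd
    set V : ℝ := volume.real (closedBall (0 : E n) r) with hV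
    set V₁ : ℝ := volume.real (ball (0 : E n) 1) with hV₁
    have hV₁pos : 0 < V₁ :=
      ENNReal.toReal_pos (measure_ball_pos volume (0 : E n) one_pos).ne' measure_ball_lt_top.ne
    have hvol : ∀ (x : E n) (ρ : ℝ), 0 ≤ ρ → volume.real (closedBall x ρ) = ρ ^ d * V₁ := by
      intro x ρ hρ
      exact Measure.addHaar_real_closedBall volume x hρ
    have hVpos : 0 < V := by rw [hV, hvol _ _ hr.le]; positivity
    -- choice of `ρ`
    obtain ⟨ρ, hρ0, hρr, hρ⟩ : ∃ ρ : ℝ, 0 < ρ ∧ ρ < r ∧ M * volume.real (closedBall z₀ (r - ρ)) <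
        V * (M + η / 2) := by
      have hcont : Continuous fun ρ : ℝ => M * ((r - ρ) ^ d * V₁) := by fun_prop
      have h0 : M * ((r - 0) ^ d * V₁) < V * (M + η / 2) := by
        rw [sub_zero, hV, hvol _ _ hr.le]
        have : 0 < r ^ d * V₁ * (η / 2) := by positivity
        linarith
      have hev : ∀ᶠ ρ : ℝ in 𝓝[>] 0, M * ((r - ρ) ^ d * V₁) < V * (M + η / 2) :=
        nhdsWithin_le_nhds (hcont.continuousAt.eventually (gt_mem_nhds h0))
      have hev2 : ∀ᶠ ρ : ℝ in 𝓝[>] 0, ρ < r := nhdsWithin_le_nhds (eventually_lt_nhds hr)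
      obtain ⟨ρ, h1, h2, h3⟩ := (hev.and (hev2.and self_mem_nhdsWithin)).exists
      refine ⟨ρ, h3, h2, ?_⟩
      rw [hvol _ _ (by linarith)]
      exact h1
    -- dominated convergence
    set K : Set (E n) := closedBall z₀ (r - ρ) with hK
    have hKsub : K ⊆ closedBall z₀ (2 * r) := closedBall_subset_closedBall (by linarith)
    have hTw : ∀ᶠ s in 𝓝[>] (0 : ℝ), s ∈ Ioo 0 T := Ioo_mem_nhdsGT hT
    have hlim : Tendsto (fun s : ℝ => ∫ y in K, max (u (y, s)) M) (𝓝[>] 0)
        (𝓝 (∫ _y in K, M)) := by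
      refine tendsto_integral_filter_of_dominated_convergence (fun _ => |M|) ?_ ?_ ?_ ?_
      · filter_upwards [hTw] with s hs
        refine ContinuousOn.aestronglyMeasurable ?_ measurableSet_closedBall
        refine ContinuousOn.sup ((sol_slice h hs).1.mono fun y hy =>
          ball_subset_closedBall (hr1 y (hKsub hy))) continuousOn_const
      · filter_upwards [hTw] with s hs
        filter_upwards [ae_restrict_mem measurableSet_closedBall] with y hy
        have h1 := sol_nonpos hn h hs y (ball_subset_closedBall (hr1 y (hKsub hy)))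
        rw [Real.norm_eq_abs, abs_of_nonpos (max_le h1 hM0.le), abs_of_neg hM0]
        exact neg_le_neg (le_max_right _ _)
      · exact integrableOn_const (hs := measure_closedBall_lt_top.ne)
      · filter_upwards [ae_restrict_mem measurableSet_closedBall] with y hy
        have hin := h.initial y (by
          rw [closure_ball (0 : E n) one_ne_zero]
          exact ball_subset_closedBall (hr1 y (hKsub hy)))
        have hlt : logPole a y < ((M : ℝ) : EReal) := logPole_lt ha (hr2 y (hKsub hy)) hM'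
        have hev := hin.eventually (gt_mem_nhds hlt)
        refine tendsto_const_nhds.congr' ?_
        filter_upwards [hev] with s hs
        rw [max_eq_right (EReal.coe_lt_coe_iff.1 hs).le]
    rw [setIntegral_const, smul_eq_mul, mul_comm] at hlim
    have hev3 : ∀ᶠ s in 𝓝[>] (0 : ℝ), ∫ y in K, max (u (y, s)) M < V * (M + η / 2) :=
      hlim.eventually (gt_mem_nhds hρ)
    rw [eventually_nhdsWithin_iff] at hev3
    have hev4 : ∀ᶠ p : ℝ × E n in 𝓝 (0, z₀), p.1 ∈ Ioi (0 : ℝ) →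
        ∫ y in K, max (u (y, p.1)) M < V * (M + η / 2) :=
      (continuous_fst.tendsto ((0 : ℝ), z₀)).eventually hev3
    have hev5 : ∀ᶠ p : ℝ × E n in 𝓝 (0, z₀), p.2 ∈ ball z₀ ρ :=
      (continuous_snd.tendsto ((0 : ℝ), z₀)).eventually (ball_mem_nhds z₀ hρ0)
    filter_upwards [hTev2, hbarev, hev4, hev5] with p hp1 hp2 hp3 hp4 hp5 _
    have hpt : p.1 ∈ Ioo 0 T := ⟨hp5, hp1⟩
    have hpd : dist p.2 z₀ < ρ := hp4
    have hsub1 : closedBall p.2 r ⊆ closedBall z₀ (2 * r) :=
      closedBall_subset_closedBall' (by linarith)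
    have hsub2 : closedBall p.2 r ⊆ ball (0 : E n) 1 := fun y hy => hr1 y (hsub1 hy)
    have hsub3 : K ⊆ closedBall p.2 r :=
      closedBall_subset_closedBall' (by rw [dist_comm]; linarith)
    obtain ⟨hcs, hds⟩ := sol_slice h hpt
    have hsm := ball_submean isOpen_ball hds (sol_levi h hpt) hsub2
    have hcu : ContinuousOn (fun y => u (y, p.1)) (closedBall p.2 r) :=
      hcs.mono (hsub2.trans ball_subset_closedBall)
    have hcg : ContinuousOn (fun y => max (u (y, p.1)) M) (closedBall p.2 r) :=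
      hcu.sup continuousOn_const
    have hiu : IntegrableOn (fun y => u (y, p.1)) (closedBall p.2 r) :=
      hcu.integrableOn_compact (isCompact_closedBall _ _)
    have hig : IntegrableOn (fun y => max (u (y, p.1)) M) (closedBall p.2 r) :=
      hcg.integrableOn_compact (isCompact_closedBall _ _)
    have h1 : ∫ y in closedBall p.2 r, u (y, p.1) ≤ ∫ y in closedBall p.2 r, max (u (y, p.1)) M :=
      setIntegral_mono_on hiu hig measurableSet_closedBall fun y _ => le_max_left _ _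
    have h2 : ∫ y in closedBall p.2 r, max (u (y, p.1)) M ≤ ∫ y in K, max (u (y, p.1)) M := by
      have h3 : ∫ y in K, -(max (u (y, p.1)) M) ≤ ∫ y in closedBall p.2 r, -(max (u (y, p.1)) M) := by
        refine setIntegral_mono_set hig.neg ?_ hsub3.eventuallyLE
        filter_upwards [ae_restrict_mem measurableSet_closedBall] with y hy
        have := sol_nonpos hn h hpt y (ball_subset_closedBall (hsub2 hy))
        show (0 : ℝ) ≤ -(max (u (y, p.1)) M)
        have := max_le this hM0.le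
        linarith
      rw [integral_neg, integral_neg] at h3
      linarith
    have h4 := hp3 hp5
    have h5 : V * u (p.2, p.1) < V * (M + η / 2) := lt_of_le_of_lt (hsm.trans (h1.trans h2)) h4
    have h6 : u (p.2, p.1) < M + η / 2 := lt_of_mul_lt_mul_left h5 hVpos.le
    linarith

lemma nonneg_of_left_max {G : ℝ → ℝ} {D s t₀ : ℝ} (hG : HasDerivAt G D t₀) (hst : s < t₀)
    (hmax : ∀ τ ∈ Icc s t₀, G τ ≤ G t₀) : 0 ≤ D := by
  have h1 : Tendsto (slope G t₀) (𝓝[<] t₀) (𝓝 D) :=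
    (hasDerivAt_iff_tendsto_slope.1 hG).mono_left (nhdsWithin_mono _ fun x hx => (mem_Iio.1 hx).ne)
  refine ge_of_tendsto h1 ?_
  filter_upwards [Ioo_mem_nhdsLT hst] with τ hτ
  rw [slope_def_field]
  exact div_nonneg_of_nonpos (by linarith [hmax τ ⟨hτ.1.le, hτ.2.le⟩]) (by linarith [hτ.2])

/-- comparison with the barrier -/
lemma comparison (h : IsFlowSolution (ball (0 : E n) 1) T (logPole a) (fun _ => 0) u)
    {δ : ℝ} (hδ : 0 < δ) {C : ℝ} (hC : 0 ≤ C) (hC2 : n * Real.log (a / 2) < C) {η : ℝ} (hη : 0 < η)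
    {s t₁ : ℝ} (hs : 0 < s) (hst : s < t₁) (ht₁ : t₁ < T) (hta : n * t₁ < a / 2)
    (hinit : ∀ z ∈ closedBall (0 : E n) 1, u (z, s) ≤ bar n a δ C z s + η) :
    ∀ z ∈ closedBall (0 : E n) 1, u (z, t₁) ≤ bar n a δ C z t₁ + η := by
  have hsm := h.smooth
  rw [closure_ball (0 : E n) one_ne_zero] at hsm
  have hKsub : closedBall (0 : E n) 1 ×ˢ Icc s t₁ ⊆ closedBall (0 : E n) 1 ×ˢ Ioo 0 T :=
    prod_mono le_rfl fun t ht => ⟨lt_of_lt_of_le hs ht.1, lt_of_le_of_lt ht.2 ht₁⟩
  have hFc : ContinuousOn (fun p : E n × ℝ => u p - bar n a δ C p.1 p.2)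
      (closedBall (0 : E n) 1 ×ˢ Icc s t₁) := by
    refine (hsm.continuousOn.mono hKsub).sub (Continuous.continuousOn ?_)
    exact (bar_continuous hδ C).comp (by fun_prop : Continuous fun p : E n × ℝ => (p.2, p.1))
  obtain ⟨p, hp, hmax⟩ := ((isCompact_closedBall (0 : E n) 1).prod isCompact_Icc).exists_isMaxOn
    ⟨(0, s), ⟨mem_closedBall_self zero_le_one, left_mem_Icc.2 hst.le⟩⟩ hFc
  obtain ⟨z₀, t₀⟩ := p
  obtain ⟨hz₀, ht₀⟩ := hp
  simp only at hz₀ ht₀
  have hmax' : ∀ z ∈ closedBall (0 : E n) 1, ∀ t ∈ Icc s t₁,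
      u (z, t) - bar n a δ C z t ≤ u (z₀, t₀) - bar n a δ C z₀ t₀ := fun z hz t ht =>
    hmax (show (z, t) ∈ closedBall (0 : E n) 1 ×ˢ Icc s t₁ from ⟨hz, ht⟩)
  rcases le_or_gt (u (z₀, t₀) - bar n a δ C z₀ t₀) η with hle | hgt
  · intro z hz
    have := hmax' z hz t₁ (right_mem_Icc.2 hst.le)
    linarith
  exfalso
  have ht₀T : t₀ ∈ Ioo 0 T := ⟨lt_of_lt_of_le hs ht₀.1, lt_of_le_of_lt ht₀.2 ht₁⟩
  have hst₀ : s < t₀ := by
    rcases ht₀.1.lt_or_eq with h1 | h1
    · exact h1
    · exfalso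
      have := hinit z₀ hz₀
      rw [h1] at this
      linarith
  set β : ℝ := a / 2 - n * t₀ with hβ
  have hβpos : 0 < β := by
    have : (n : ℝ) * t₀ ≤ n * t₁ := mul_le_mul_of_nonneg_left ht₀.2 (Nat.cast_nonneg n)
    linarith
  have hz₀b : z₀ ∈ ball (0 : E n) 1 := by
    rcases (mem_closedBall.1 hz₀).lt_or_eq with h1 | h1
    · exact mem_ball.2 h1
    · exfalso
      have h2 := h.boundary t₀ ht₀T z₀ (by
        rw [frontier_ball (0 : E n) one_ne_zero]
        exact mem_sphere.2 h1)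
      rw [dist_zero_right] at h1
      have h3 : 0 ≤ bar n a δ C z₀ t₀ := by
        unfold bar
        have h4 : 0 ≤ Real.log (‖z₀‖ ^ 2 + δ) := Real.log_nonneg (by rw [h1]; linarith)
        have h5 := ht₀T.1
        rw [← hβ]
        positivity
      rw [h2] at hgt
      linarith
  set S : ℝ := ‖z₀‖ ^ 2 + δ with hS
  have hSpos : 0 < S := by positivity
  obtain ⟨hcs, hds⟩ := sol_slice h ht₀T
  -- the spatial second derivatives
  have hD2 : ∀ w : E n, D2 (fun y => u (y, t₀)) z₀ w w ≤ 2 * (β * ‖w‖ ^ 2 / S) := by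
    intro w
    refine D2_le_of_isLocalMax isOpen_ball hds hz₀b (α := 2 * β * inner ℝ z₀ w / S) ?_
    have hc : Continuous fun x : ℝ => z₀ + x • w := by fun_prop
    have hev : ∀ᶠ x : ℝ in 𝓝 0, z₀ + x • w ∈ ball (0 : E n) 1 := by
      refine hc.continuousAt.eventually_mem ?_
      simp only [zero_smul, add_zero]
      exact isOpen_ball.mem_nhds hz₀b
    filter_upwards [hev] with x hx
    have h1 := hmax' _ (ball_subset_closedBall hx) t₀ ht₀
    have h2 : ‖z₀ + x • w‖ ^ 2 = ‖z₀‖ ^ 2 + 2 * (x * inner ℝ z₀ w) + x ^ 2 * ‖w‖ ^ 2 := by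
      rw [norm_add_sq_real, inner_smul_right, norm_smul, mul_pow, Real.norm_eq_abs, sq_abs]
    have hX : 0 < ‖z₀ + x • w‖ ^ 2 + δ := by positivity
    have h3 : Real.log (‖z₀ + x • w‖ ^ 2 + δ) ≤
        Real.log S + ((‖z₀ + x • w‖ ^ 2 + δ) / S - 1) := by
      have h4 := Real.log_le_sub_one_of_pos (div_pos hX hSpos)
      rw [Real.log_div hX.ne' hSpos.ne'] at h4
      linarith
    have h5 : (‖z₀ + x • w‖ ^ 2 + δ) / S - 1 = 2 * (x * inner ℝ z₀ w) / S + x ^ 2 * ‖w‖ ^ 2 / S := by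
      rw [h2, hS]
      have : ‖z₀‖ ^ 2 + δ ≠ 0 := hSpos.ne'
      field_simp
      ring
    have h6 : bar n a δ C (z₀ + x • w) t₀ ≤ bar n a δ C z₀ t₀ +
        β * (2 * (x * inner ℝ z₀ w) / S + x ^ 2 * ‖w‖ ^ 2 / S) := by
      unfold bar
      rw [← hβ, ← hS]
      have := mul_le_mul_of_nonneg_left h3 hβpos.le
      rw [h5] at this
      linarith
    show u (z₀ + x • w, t₀) - (2 * β * inner ℝ z₀ w / S * x + β * ‖w‖ ^ 2 / S * x ^ 2) ≤
      u (z₀ + (0 : ℝ) • w, t₀) - (2 * β * inner ℝ z₀ w / S * 0 + β * ‖w‖ ^ 2 / S * 0 ^ 2)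
    rw [zero_smul, add_zero]
    have h7 : β * (2 * (x * inner ℝ z₀ w) / S + x ^ 2 * ‖w‖ ^ 2 / S) =
        2 * β * inner ℝ z₀ w / S * x + β * ‖w‖ ^ 2 / S * x ^ 2 := by ring
    rw [h7] at h6
    linarith
  have hdet := det_le_of_levi_le (h.psh t₀ ht₀T z₀ hz₀b) (c := β / S) (by
    intro w
    have h1 := hD2 w
    have h2 := hD2 (Complex.I • w)
    rw [norm_smul, Complex.norm_I, one_mul] at h2
    have h3 : 4 * (β / S) * ‖w‖ ^ 2 = 2 * (β * ‖w‖ ^ 2 / S) + 2 * (β * ‖w‖ ^ 2 / S) := by ring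
    linarith)
  obtain ⟨hdet1, hdet2⟩ := hdet
  -- the time derivative
  have hder : HasDerivAt (fun τ => u (z₀, τ))
      (Real.log (complexHessian (fun y => u (y, t₀)) z₀).det.re) t₀ := by
    rw [← h.flow t₀ ht₀T z₀ hz₀b]
    refine DifferentiableAt.hasDerivAt ?_
    have h1 : ContDiffAt ℝ ∞ u (z₀, t₀) :=
      hsm.contDiffAt (prod_mem_nhds (mem_of_superset (isOpen_ball.mem_nhds hz₀b)
        ball_subset_closedBall) (isOpen_Ioo.mem_nhds ht₀T))
    have h2 : DifferentiableAt ℝ u (z₀, t₀) := h1.differentiableAt (by simp)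
    exact DifferentiableAt.comp t₀ h2 (by fun_prop)
  have hbar : HasDerivAt (fun τ => bar n a δ C z₀ τ) (-n * Real.log S + C) t₀ := by
    unfold bar
    have h1 : HasDerivAt (fun τ : ℝ => a / 2 - n * τ) (-n) t₀ := by
      simpa using ((hasDerivAt_id t₀).const_mul (n : ℝ)).const_sub (a / 2)
    have h2 : HasDerivAt (fun τ : ℝ => C * τ) C t₀ := by
      simpa using (hasDerivAt_id t₀).const_mul C
    exact (h1.mul_const _).add h2
  have hnn := nonneg_of_left_max (hder.sub hbar) hst₀ (fun τ hτ =>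
    hmax' z₀ hz₀ τ ⟨hτ.1, hτ.2.trans ht₀.2⟩)
  have h8 : Real.log (complexHessian (fun y => u (y, t₀)) z₀).det.re ≤
      n * (Real.log β - Real.log S) := by
    have := Real.log_le_log hdet1 hdet2
    rwa [Real.log_pow, Real.log_div hβpos.ne' hSpos.ne'] at this
  have h9 : (n : ℝ) * Real.log β ≤ n * Real.log (a / 2) := by
    refine mul_le_mul_of_nonneg_left (Real.log_le_log hβpos ?_) (Nat.cast_nonneg n)
    rw [hβ]
    have := ht₀T.1
    have : (0 : ℝ) ≤ n * t₀ := by positivity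
    linarith
  linarith

end Solution

/-- **Theorem.** For every `n ≥ 1`, `T > 0` and `a > 0` there is no solution of the flow
`∂_t u = log det (∂² u / ∂ z_i ∂ \bar z_j)` on the unit ball of `ℂⁿ` over `(0, T)` with initial datum
`a log |z|` (attained pointwise) and boundary data `0`. -/
theorem result (n : ℕ) (hn : 1 ≤ n) (T : ℝ) (hT : 0 < T) (a : ℝ) (ha : 0 < a) :
    ¬ ∃ u : E n × ℝ → ℝ, IsFlowSolution (ball (0 : E n) 1) T (logPole a) (fun _ => 0) u := by
  rintro ⟨u, h⟩
  have hn' : (0 : ℝ) < n := by exact_mod_cast hn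
  set t₁ : ℝ := min (T / 2) (a / (4 * n)) with ht₁
  have ht₁pos : 0 < t₁ := lt_min (by positivity) (by positivity)
  have ht₁T : t₁ < T := lt_of_le_of_lt (min_le_left _ _) (by linarith)
  have hta : n * t₁ ≤ a / 4 := by
    have : t₁ ≤ a / (4 * n) := min_le_right _ _
    calc n * t₁ ≤ n * (a / (4 * n)) := mul_le_mul_of_nonneg_left this hn'.le
      _ = a / 4 := by field_simp
  set C : ℝ := |n * Real.log (a / 2)| + 1 with hC
  have hC0 : 0 ≤ C := by positivity
  have hC2 : n * Real.log (a / 2) < C := by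
    have := le_abs_self (n * Real.log (a / 2))
    linarith
  have hbound : ∀ K : ℝ, 0 ≤ K → u (0, t₁) ≤ -K * (a / 4) + C * t₁ + 1 := by
    intro K hK
    have hinit := initial_layer (u := u) hn hT ha h (Real.exp_pos (-K)) C one_pos
    obtain ⟨s, hs1, hs2⟩ := (hinit.and (Ioo_mem_nhdsGT ht₁pos)).exists
    have h1 := comparison h (Real.exp_pos (-K)) hC0 hC2 one_pos hs2.1 hs2.2 ht₁T (by linarith) hs1
      0 (mem_closedBall_self zero_le_one)
    unfold bar at h1
    rw [norm_zero, zero_pow two_ne_zero, zero_add, Real.log_exp] at h1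
    nlinarith
  have h2 := hbound (4 / a * (|u (0, t₁)| + C * t₁ + 2)) (by positivity)
  have h3 : -(4 / a * (|u (0, t₁)| + C * t₁ + 2)) * (a / 4) = -(|u (0, t₁)| + C * t₁ + 2) := by
    field_simp
  rw [h3] at h2
  have h4 := neg_abs_le (u (0, t₁))
  linarith

end Pool.Agent.Results.MP_8f0dee_an.LelongData
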